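import Mathlib

/-!
Infinite-subset versions of a group law: definitions.
-/

set_option autoImplicit false

namespace Pool.Agent.ZZD

/-- Any `n` infinite subsets of `G` have representatives which satisfy `w = 1`. -/
def InfLaw {n : ℕ} (w : FreeGroup (Fin n)) (G : Type*) [Group G] : Prop :=
  ∀ S : Fin n → Set G, (∀ i, (S i).Infinite) →
    ∃ s : Fin n → G, (∀ i, s i ∈ S i) ∧ FreeGroup.lift s w = 1

/-- Group words in one variable with coefficients in `G`, as functions on `G`: the functions which
come from the identity and the constants by products and inverses. -/
def OneVar (G : Type*) [Group G] : Subgroup (G → G) :=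
  Subgroup.closure (insert id (Set.range fun c : G => fun _ : G => c))

/-- `G` is equationally noetherian in one variable: every system of equations `f x = 1` with
coefficients in `G` has the same solutions as a finite part of it. -/
def EqNoetherian (G : Type*) [Group G] : Prop :=
  ∀ S : Set (G → G), S ⊆ (OneVar G : Set (G → G)) → ∃ S₀ : Finset (G → G), (↑S₀ : Set (G → G)) ⊆ S ∧
    ∀ x, (∀ f ∈ S₀, f x = 1) → ∀ f ∈ S, f x = 1

end Pool.Agent.ZZD
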