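import Mathlib
import Pool.Agent.ZZD.Defs

/-!
Infinite-subset versions of a group law: a counterexample is discrete in its Zariski topology.
-/

set_option autoImplicit false

namespace Pool.Agent.ZZD

open Filter Topology Matrix

/-! ### The box -/

theorem box {n : ℕ} (w : FreeGroup (Fin n)) {G : Type*} [Group G] (hG : InfLaw w G) (P : Set G)
    (h1 : (1 : G) ∈ P) (g : Fin n → G) (hg : FreeGroup.lift g w ∉ P) :
    ∃ (i : Fin n) (A : Finset (Fin n → G)),
      (∀ a ∈ A, FreeGroup.lift (Function.update a i (g i)) w ∉ P) ∧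
      {x : G | ∀ a ∈ A, FreeGroup.lift (Function.update a i x) w ∉ P}.Finite := by
  classical
  by_contra hcon
  have hcon' : ∀ (i : Fin n) (A : Finset (Fin n → G)),
      (∀ a ∈ A, FreeGroup.lift (Function.update a i (g i)) w ∉ P) →
      {x : G | ∀ a ∈ A, FreeGroup.lift (Function.update a i x) w ∉ P}.Infinite :=
    fun i A hA hfin => hcon ⟨i, A, hA, hfin⟩
  let Good : (Fin n → Finset G) → Prop := fun X =>
    (∀ i, g i ∈ X i) ∧ ∀ s ∈ Fintype.piFinset X, FreeGroup.lift s w ∉ P
  have hext1 : ∀ X, Good X → ∀ i, ∃ x, x ∉ X i ∧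
      Good (Function.update X i (insert x (X i))) := by
    intro X hX i
    have hup : ∀ a ∈ Fintype.piFinset X, Function.update a i (g i) ∈ Fintype.piFinset X := by
      intro a ha
      refine Fintype.mem_piFinset.2 fun j => ?_
      by_cases hj : j = i
      · subst hj
        rw [Function.update_self]
        exact hX.1 j
      · rw [Function.update_of_ne hj]
        exact Fintype.mem_piFinset.1 ha j
    have hinf := hcon' i (Fintype.piFinset X) (fun a ha => hX.2 _ (hup a ha))
    obtain ⟨x, hx, hxX⟩ := hinf.exists_notMem_finset (X i)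
    refine ⟨x, hxX, fun j => ?_, fun s hs => ?_⟩
    · by_cases hj : j = i
      · subst hj
        rw [Function.update_self]
        exact Finset.mem_insert_of_mem (hX.1 j)
      · rw [Function.update_of_ne hj]
        exact hX.1 j
    · have hs1 : ∀ j, j ≠ i → s j ∈ X j := by
        intro j hj
        have h := Fintype.mem_piFinset.1 hs j
        rwa [Function.update_of_ne hj] at h
      have hs2 : s i ∈ insert x (X i) := by
        have h := Fintype.mem_piFinset.1 hs i
        rwa [Function.update_self] at h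
      rcases Finset.mem_insert.1 hs2 with h | h
      · have ha : Function.update s i (g i) ∈ Fintype.piFinset X := by
          refine Fintype.mem_piFinset.2 fun j => ?_
          by_cases hj : j = i
          · subst hj
            rw [Function.update_self]
            exact hX.1 j
          · rw [Function.update_of_ne hj]
            exact hs1 j hj
        have h2 := hx _ ha
        rw [Function.update_idem, ← h, Function.update_eq_self] at h2
        exact h2
      · refine hX.2 s (Fintype.mem_piFinset.2 fun j => ?_)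
        by_cases hj : j = i
        · subst hj
          exact h
        · exact hs1 j hj
  have hextJ : ∀ X, Good X → ∀ J : Finset (Fin n), ∃ X', Good X' ∧ (∀ i, X i ⊆ X' i) ∧
      ∀ i ∈ J, X i ⊂ X' i := by
    intro X hX J
    induction J using Finset.induction_on with
    | empty => exact ⟨X, hX, fun i => Finset.Subset.refl _, fun i hi => absurd hi (by simp)⟩
    | insert i J _ ih =>
      obtain ⟨X', hX', h1, h2⟩ := ih
      obtain ⟨x, hx, hgood⟩ := hext1 X' hX' i
      refine ⟨_, hgood, fun j => ?_, fun j hj => ?_⟩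
      · by_cases hji : j = i
        · subst hji
          rw [Function.update_self]
          exact (h1 j).trans (Finset.subset_insert _ _)
        · rw [Function.update_of_ne hji]
          exact h1 j
      · by_cases hji : j = i
        · subst hji
          rw [Function.update_self]
          exact lt_of_le_of_lt (h1 j) (Finset.ssubset_insert hx)
        · rw [Function.update_of_ne hji]
          exact h2 j (Finset.mem_of_mem_insert_of_ne hj hji)
  have hext : ∀ X : {X // Good X}, ∃ X' : {X // Good X}, ∀ i, X.1 i ⊂ X'.1 i := by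
    intro X
    obtain ⟨X', h1, -, h2⟩ := hextJ X.1 X.2 Finset.univ
    exact ⟨⟨X', h1⟩, fun i => h2 i (Finset.mem_univ i)⟩
  choose next hnext using hext
  have hX0 : Good fun i => {g i} := by
    refine ⟨fun i => Finset.mem_singleton_self _, fun s hs => ?_⟩
    have h : s = g := funext fun i => Finset.mem_singleton.1 (Fintype.mem_piFinset.1 hs i)
    rw [h]
    exact hg
  let f : ℕ → {X // Good X} := fun k => Nat.rec ⟨_, hX0⟩ (fun _ Y => next Y) k
  have hmono : ∀ i, StrictMono fun k => (f k).1 i :=
    fun i => strictMono_nat_of_lt_succ fun k => hnext (f k) i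
  have hSinf : ∀ i, (⋃ k, (↑((f k).1 i) : Set G)).Infinite := by
    intro i hfin
    have hsub : ∀ k, (f k).1 i ⊆ hfin.toFinset := fun k x hx =>
      hfin.mem_toFinset.2 (Set.mem_iUnion.2 ⟨k, hx⟩)
    have hcard : StrictMono fun k => ((f k).1 i).card :=
      fun a b hab => Finset.card_lt_card (hmono i hab)
    have h2 := hcard.le_apply (x := hfin.toFinset.card + 1)
    have h3 := Finset.card_le_card (hsub (hfin.toFinset.card + 1))
    have h4 : hfin.toFinset.card + 1 ≤ hfin.toFinset.card := le_trans h2 h3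
    omega
  obtain ⟨s, hs, hw⟩ := hG _ hSinf
  choose k hk using fun i => Set.mem_iUnion.1 (hs i)
  have hsK : s ∈ Fintype.piFinset (f (Finset.univ.sup k)).1 := by
    refine Fintype.mem_piFinset.2 fun i => ?_
    exact (hmono i).monotone (Finset.le_sup (Finset.mem_univ i)) (hk i)
  exact (f (Finset.univ.sup k)).2.2 s hsK (by rw [hw]; exact h1)

/-! ### Words with coefficients -/

theorem lift_apply {n : ℕ} {G : Type*} [Group G] (w : FreeGroup (Fin n)) (u : Fin n → G → G)
    (x : G) : FreeGroup.lift u w x = FreeGroup.lift (fun j => u j x) w := by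
  induction w using FreeGroup.induction_on with
  | C1 => simp
  | of i => simp
  | inv_of i _ => simp
  | mul a b ha hb => simp only [map_mul, Pi.mul_apply, ha, hb]

theorem poly_word {n : ℕ} {G : Type*} [Group G] (w : FreeGroup (Fin n)) (u : Fin n → G → G)
    (hu : ∀ j, u j ∈ OneVar G) : (fun x => FreeGroup.lift (fun j => u j x) w) ∈ OneVar G := by
  have h1 : (fun x => FreeGroup.lift (fun j => u j x) w) = FreeGroup.lift u w :=
    funext fun x => (lift_apply w u x).symm
  rw [h1]
  have h2 : (FreeGroup.lift u).range ≤ OneVar G := by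
    refine FreeGroup.range_lift_le ?_
    rintro _ ⟨j, rfl⟩
    exact hu j
  exact h2 ⟨w, rfl⟩

theorem const_mem {G : Type*} [Group G] (c : G) : (fun _ : G => c) ∈ OneVar G :=
  Subgroup.subset_closure (Set.mem_insert_of_mem _ ⟨c, rfl⟩)

theorem id_mem {G : Type*} [Group G] : (fun x : G => x) ∈ OneVar G :=
  Subgroup.subset_closure (Set.mem_insert _ _)

/-! ### Equationally noetherian groups -/

/-- If `w = 1` is not a law, every point is isolated, up to finitely many others, by finitely many
inequations. -/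
theorem isolated {n : ℕ} (w : FreeGroup (Fin n)) {G : Type*} [Group G] (hG : InfLaw w G)
    (g : Fin n → G) (hne : FreeGroup.lift g w ≠ 1) (y : G) : ∃ T : Finset (G → G),
      (∀ f ∈ T, f ∈ OneVar G) ∧ (∀ f ∈ T, f y ≠ 1) ∧ {x : G | ∀ f ∈ T, f x ≠ 1}.Finite := by
  classical
  obtain ⟨i, A, hA, hfin⟩ := box w hG {1} rfl g hne
  refine ⟨A.image fun a x => FreeGroup.lift (Function.update a i (g i * y⁻¹ * x)) w, ?_, ?_, ?_⟩
  · intro f hf
    obtain ⟨a, -, rfl⟩ := Finset.mem_image.1 hf
    refine poly_word w (fun j x => Function.update a i (g i * y⁻¹ * x) j) fun j => ?_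
    by_cases hj : j = i
    · subst hj
      have h1 : (fun x => Function.update a j (g j * y⁻¹ * x) j) =
          (fun _ : G => g j * y⁻¹) * fun x : G => x := by
        funext x
        simp
      rw [h1]
      exact mul_mem (const_mem _) id_mem
    · have h1 : (fun x => Function.update a i (g i * y⁻¹ * x) j) = fun _ : G => a j := by
        funext x
        exact Function.update_of_ne hj _ _
      rw [h1]
      exact const_mem _
  · intro f hf
    obtain ⟨a, ha, rfl⟩ := Finset.mem_image.1 hf
    have h := hA a ha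
    simpa using h
  · refine (hfin.preimage (f := fun x => g i * y⁻¹ * x)
      (fun a _ b _ hab => mul_left_cancel hab)).subset ?_
    intro x hx a ha
    exact hx _ (Finset.mem_image_of_mem _ ha)

/-- The same without exceptions. -/
theorem isolated' {n : ℕ} (w : FreeGroup (Fin n)) {G : Type*} [Group G] (hG : InfLaw w G)
    (g : Fin n → G) (hne : FreeGroup.lift g w ≠ 1) (y : G) : ∃ T : Finset (G → G),
      (∀ f ∈ T, f ∈ OneVar G ∧ f y ≠ 1) ∧ ∀ x, x ≠ y → ∃ f ∈ T, f x = 1 := by
  classical
  obtain ⟨T, h1, h2, h3⟩ := isolated w hG g hne y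
  refine ⟨T ∪ (h3.toFinset.erase y).image (fun c x => x * c⁻¹), ?_, fun x hx => ?_⟩
  · intro f hf
    rcases Finset.mem_union.1 hf with hf | hf
    · exact ⟨h1 f hf, h2 f hf⟩
    · obtain ⟨c, hc, rfl⟩ := Finset.mem_image.1 hf
      refine ⟨mul_mem id_mem (const_mem c⁻¹), fun h => ?_⟩
      exact (Finset.mem_erase.1 hc).1 (mul_inv_eq_one.1 h).symm
  · by_cases h : ∀ f ∈ T, f x ≠ 1
    · refine ⟨fun z => z * x⁻¹, Finset.mem_union_right _ (Finset.mem_image.2 ⟨x, ?_, rfl⟩),
        mul_inv_cancel x⟩
      exact Finset.mem_erase.2 ⟨hx, h3.mem_toFinset.2 h⟩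
    · push Not at h
      obtain ⟨f, hf, hfx⟩ := h
      exact ⟨f, Finset.mem_union_left _ hf, hfx⟩

theorem law_of_eqNoetherian {n : ℕ} (w : FreeGroup (Fin n)) {G : Type*} [Group G] [Infinite G]
    (hG : InfLaw w G) (hN : EqNoetherian G) (g : Fin n → G) : FreeGroup.lift g w = 1 := by
  classical
  by_contra hne
  have hiso := isolated w hG g hne
  -- a maximal system with infinitely many solutions
  let 𝒜 : Set (Set (G → G)) := {S | S ⊆ (OneVar G : Set (G → G)) ∧
    {x : G | ∀ f ∈ S, f x = 1}.Infinite}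
  obtain ⟨S, hS⟩ : ∃ S, Maximal (· ∈ 𝒜) S := by
    refine zorn_subset 𝒜 fun c hc hch => ?_
    rcases c.eq_empty_or_nonempty with rfl | hne
    · refine ⟨∅, ⟨Set.empty_subset _, ?_⟩, fun s hs => absurd hs (Set.notMem_empty s)⟩
      have h1 : {x : G | ∀ f ∈ (∅ : Set (G → G)), f x = 1} = Set.univ := by
        ext x
        simp
      rw [h1]
      exact Set.infinite_univ
    · have hsub : (⋃₀ c) ⊆ (OneVar G : Set (G → G)) := Set.sUnion_subset fun s hs => (hc hs).1
      refine ⟨⋃₀ c, ⟨hsub, ?_⟩, fun s hs => Set.subset_sUnion_of_mem hs⟩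
      obtain ⟨S₀, hS₀, hS₀'⟩ := hN _ hsub
      obtain ⟨s, hs, hs'⟩ := DirectedOn.exists_mem_subset_of_finset_subset_biUnion
        (f := fun s : Set (G → G) => s) hne hch.directedOn
        (by rwa [← Set.sUnion_eq_biUnion])
      refine (hc hs).2.mono fun x hx => ?_
      exact hS₀' x fun f hf => hx f (hs' hf)
  obtain ⟨y, hy⟩ := hS.prop.2.nonempty
  obtain ⟨T, hT1, hT2, hT3⟩ := hiso y
  have hsmall : ∀ f ∈ T, ({x : G | ∀ f ∈ S, f x = 1} ∩ {x | f x = 1}).Finite := by
    intro f hf
    by_contra hinf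
    have hmem : insert f S ∈ 𝒜 := by
      refine ⟨Set.insert_subset (hT1 f hf) hS.prop.1, ?_⟩
      refine Set.Infinite.mono ?_ hinf
      rintro x ⟨hx1, hx2⟩ f' hf'
      rcases hf' with rfl | hf'
      · exact hx2
      · exact hx1 f' hf'
    have h := hS.le_of_ge hmem (Set.subset_insert _ _)
    exact hT2 f hf (hy f (h (Set.mem_insert _ _)))
  refine hS.prop.2 ((hT3.union (T.finite_toSet.biUnion hsmall)).subset ?_)
  intro x hx
  by_cases hxT : ∀ f ∈ T, f x ≠ 1
  · exact Or.inl hxT
  · push Not at hxT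
    obtain ⟨f, hf, hfx⟩ := hxT
    exact Or.inr (Set.mem_biUnion hf ⟨hx, hfx⟩)

/-! ### Linear groups -/

theorem eqNoetherian_linear {G F : Type*} [Group G] [Field F] (d : ℕ) (ρ : G →* GL (Fin d) F)
    (hρ : Function.Injective ρ) : EqNoetherian G := by
  classical
  intro S hS
  let gens : Set (G → F) :=
    (Set.range fun q : Fin d × Fin d => fun x => (ρ x : Matrix (Fin d) (Fin d) F) q.1 q.2) ∪
    (Set.range fun q : Fin d × Fin d => fun x => (ρ x⁻¹ : Matrix (Fin d) (Fin d) F) q.1 q.2)
  let A : Subalgebra F (G → F) := Algebra.adjoin F gens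
  have hgfin : gens.Finite := (Set.finite_range _).union (Set.finite_range _)
  have hfg : A.FG := Subalgebra.fg_def.2 ⟨gens, hgfin, rfl⟩
  have hft : Algebra.FiniteType F A := A.fg_iff_finiteType.1 hfg
  have hnoeth : IsNoetherianRing A := Algebra.FiniteType.isNoetherianRing F A
  have hmem : ∀ f ∈ OneVar G, (∀ q : Fin d × Fin d,
      (fun x => (ρ (f x) : Matrix (Fin d) (Fin d) F) q.1 q.2) ∈ A) ∧ (∀ q : Fin d × Fin d,
      (fun x => (ρ ((f x)⁻¹) : Matrix (Fin d) (Fin d) F) q.1 q.2) ∈ A) := by
    intro f hf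
    refine Subgroup.closure_induction (p := fun f _ => (∀ q : Fin d × Fin d,
      (fun x => (ρ (f x) : Matrix (Fin d) (Fin d) F) q.1 q.2) ∈ A) ∧ (∀ q : Fin d × Fin d,
      (fun x => (ρ ((f x)⁻¹) : Matrix (Fin d) (Fin d) F) q.1 q.2) ∈ A)) ?_ ?_ ?_ ?_ hf
    · rintro f (rfl | ⟨c, rfl⟩)
      · exact ⟨fun q => Algebra.subset_adjoin (Or.inl ⟨q, rfl⟩),
          fun q => Algebra.subset_adjoin (Or.inr ⟨q, rfl⟩)⟩
      · exact ⟨fun q => A.algebraMap_mem ((ρ c : Matrix (Fin d) (Fin d) F) q.1 q.2),
          fun q => A.algebraMap_mem ((ρ (c⁻¹) : Matrix (Fin d) (Fin d) F) q.1 q.2)⟩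
    · refine ⟨fun q => ?_, fun q => ?_⟩
      · have e : (fun x => (ρ ((1 : G → G) x) : Matrix (Fin d) (Fin d) F) q.1 q.2) =
            algebraMap F (G → F) ((1 : Matrix (Fin d) (Fin d) F) q.1 q.2) := by
          funext x
          simp [Pi.algebraMap_apply]
        rw [e]
        exact A.algebraMap_mem _
      · have e : (fun x => (ρ (((1 : G → G) x)⁻¹) : Matrix (Fin d) (Fin d) F) q.1 q.2) =
            algebraMap F (G → F) ((1 : Matrix (Fin d) (Fin d) F) q.1 q.2) := by
          funext x
          simp [Pi.algebraMap_apply]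
        rw [e]
        exact A.algebraMap_mem _
    · intro f f' _ _ h h'
      refine ⟨fun q => ?_, fun q => ?_⟩
      · have e : (fun x => (ρ ((f * f') x) : Matrix (Fin d) (Fin d) F) q.1 q.2) =
            ∑ k : Fin d, (fun x => (ρ (f x) : Matrix (Fin d) (Fin d) F) q.1 k) *
              (fun x => (ρ (f' x) : Matrix (Fin d) (Fin d) F) k q.2) := by
          funext x
          simp [Matrix.mul_apply]
        rw [e]
        exact sum_mem fun k _ => mul_mem (h.1 (q.1, k)) (h'.1 (k, q.2))
      · have e : (fun x => (ρ (((f * f') x)⁻¹) : Matrix (Fin d) (Fin d) F) q.1 q.2) =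
            ∑ k : Fin d, (fun x => (ρ ((f' x)⁻¹) : Matrix (Fin d) (Fin d) F) q.1 k) *
              (fun x => (ρ ((f x)⁻¹) : Matrix (Fin d) (Fin d) F) k q.2) := by
          funext x
          rw [Finset.sum_apply, Pi.mul_apply, _root_.mul_inv_rev, map_mul]
          rfl
        rw [e]
        exact sum_mem fun k _ => mul_mem (h'.2 (q.1, k)) (h.2 (k, q.2))
    · intro f _ h
      refine ⟨fun q => h.2 q, fun q => ?_⟩
      have e : (fun x => (ρ ((f⁻¹ x)⁻¹) : Matrix (Fin d) (Fin d) F) q.1 q.2) =
          fun x => (ρ (f x) : Matrix (Fin d) (Fin d) F) q.1 q.2 := by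
        funext x
        rw [Pi.inv_apply, inv_inv]
      rw [e]
      exact h.1 q
  let E : (G → G) → Fin d × Fin d → G → F := fun f q x =>
    (ρ (f x) : Matrix (Fin d) (Fin d) F) q.1 q.2 - (1 : Matrix (Fin d) (Fin d) F) q.1 q.2
  have hE : ∀ f ∈ S, ∀ q, E f q ∈ A := fun f hf q =>
    sub_mem ((hmem f (hS hf)).1 q) (A.algebraMap_mem ((1 : Matrix (Fin d) (Fin d) F) q.1 q.2))
  let Sg : Set A := {a | ∃ f ∈ S, ∃ q, (a : G → F) = E f q}
  obtain ⟨s', hs', hspan⟩ := (Submodule.fg_span_iff_fg_span_finset_subset (R := A) Sg).1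
    (IsNoetherian.noetherian _)
  have hch : ∀ a : A, a ∈ s' → ∃ f, f ∈ S ∧ ∃ q, (a : G → F) = E f q := fun a ha => by
    obtain ⟨f, hf, q, hq⟩ := hs' ha
    exact ⟨f, hf, q, hq⟩
  choose! φ hφS q hq using hch
  refine ⟨s'.image φ, ?_, ?_⟩
  · intro f hf
    obtain ⟨a, ha, rfl⟩ := Finset.mem_image.1 (Finset.mem_coe.1 hf)
    exact hφS a ha
  · intro x hx f hf
    have hvan : ∀ a ∈ Submodule.span A Sg, (a : G → F) x = 0 := by
      rw [hspan]
      intro a ha
      induction ha using Submodule.span_induction with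
      | mem a ha =>
        rw [hq a ha]
        show (ρ (φ a x) : Matrix (Fin d) (Fin d) F) (q a ha).1 (q a ha).2 -
          (1 : Matrix (Fin d) (Fin d) F) (q a ha).1 (q a ha).2 = 0
        rw [hx _ (Finset.mem_image_of_mem _ ha), map_one]
        exact sub_self _
      | zero => rfl
      | add a b _ _ ha hb =>
        show (a : G → F) x + (b : G → F) x = 0
        rw [ha, hb, add_zero]
      | smul c a _ ha =>
        show (c : G → F) x * (a : G → F) x = 0
        rw [ha, mul_zero]
    have h1 : ρ (f x) = 1 := by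
      refine Units.ext (Matrix.ext fun i j => ?_)
      have h2 := hvan ⟨E f (i, j), hE f hf (i, j)⟩ (Submodule.subset_span ⟨f, hf, (i, j), rfl⟩)
      exact sub_eq_zero.1 h2
    exact hρ (h1.trans (map_one ρ).symm)

/-- The class is closed under images. -/
theorem InfLaw.image {n : ℕ} {w : FreeGroup (Fin n)} {G H : Type*} [Group G] [Group H]
    (hG : InfLaw w G) (f : G →* H) (hf : Function.Surjective f) : InfLaw w H := by
  intro S hS
  obtain ⟨s, hs, hw⟩ := hG (fun i => f ⁻¹' S i) fun i hfin => hS i (by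
    have h := hfin.image f
    rwa [Set.image_preimage_eq _ hf] at h)
  refine ⟨fun i => f (s i), hs, ?_⟩
  have h : FreeGroup.lift (fun i => f (s i)) w = f (FreeGroup.lift s w) := by
    have e : FreeGroup.lift (fun i => f (s i)) = f.comp (FreeGroup.lift s) := by
      ext i
      simp
    rw [e]
    rfl
  rw [h, hw, map_one]

end Pool.Agent.ZZD
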